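import Pool.Agent.TH574.AX.Core

/-!
# Solutions of `A X + B Y = C Z` in products, of every height, degree and spread

The number of solutions for which the product of the distinct members of the three sequences is at
most `R` is finite and at most `K R ^ (2 / 3 + ε)`.
-/

set_option autoImplicit false

namespace Pool.Agent.Results.MP_4ffbf9_nt.AllHeights

open Finset

/-- the product of the primes dividing `n` -/
def rad (n : ℕ) : ℕ := ∏ p ∈ n.primeFactors, p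

/-- `w` is the product of a nonempty finite sequence of positive integers whose distinct members
have product `r` (for a perfect power `a ^ n` one can take `r = a`; a product of base `b` and
spread `s` has `r ≤ (b + s) ^ (s + 1)`) -/
def IsProduct (w r : ℕ) : Prop :=
  ∃ l : List ℕ, l ≠ [] ∧ (∀ x ∈ l, 0 < x) ∧ l.prod = w ∧ ∏ x ∈ l.toFinset, x = r

/-- the solutions `(X, Y, Z)` of `A X + B Y = C Z` with `gcd (X, Y) / rad (gcd (X, Y)) ≤ Q` which
have product representations such that the product of the distinct members of the three sequences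
is at most `R`; there is no condition on the size of `X`, `Y`, `Z` or on the degrees -/
def Solutions (A B C : ℕ) (Q R : ℝ) : Set (ℕ × ℕ × ℕ) :=
  {t | 0 < t.1 ∧ 0 < t.2.1 ∧ 0 < t.2.2 ∧ A * t.1 + B * t.2.1 = C * t.2.2 ∧
    ((Nat.gcd t.1 t.2.1 : ℕ) : ℝ) / rad (Nat.gcd t.1 t.2.1) ≤ Q ∧
    ∃ u v w : ℕ, IsProduct t.1 u ∧ IsProduct t.2.1 v ∧ IsProduct t.2.2 w ∧
      ((u * v * w : ℕ) : ℝ) ≤ R}

open Pool.Agent.TH574.AX (T T_finite T_card Sol pr pr_rad pr_cop pr_pos mult back back_eq rad_pos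
  rad_dvd)

theorem rad_eq (n : ℕ) : rad n = Pool.Agent.TH574.AX.rad n := rfl

theorem rad_le_of_isProduct {w r : ℕ} (h : IsProduct w r) : rad w ≤ r := by
  obtain ⟨l, -, hpos, hw, hr⟩ := h
  have hr0 : 0 < ∏ x ∈ l.toFinset, x := Finset.prod_pos fun x hx => hpos x (List.mem_toFinset.1 hx)
  rw [← hr]
  refine le_trans ?_ (Nat.le_of_dvd hr0 (rad_dvd _))
  rw [rad_eq]
  unfold Pool.Agent.TH574.AX.rad
  refine Finset.prod_le_prod_of_subset_of_one_le' ?_
    fun q hq _ => (Nat.prime_of_mem_primeFactors hq).one_le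
  intro p hp
  obtain ⟨hp1, hp2, -⟩ := Nat.mem_primeFactors.1 hp
  rw [← hw] at hp2
  obtain ⟨x, hx, hpx⟩ := (hp1.prime.dvd_prod_iff).1 hp2
  exact Nat.mem_primeFactors.2 ⟨hp1, hpx.trans
    (Finset.dvd_prod_of_mem _ (List.mem_toFinset.2 hx)), hr0.ne'⟩

theorem result (A B C : ℕ) (hA : 0 < A) (hB : 0 < B) (hC : 0 < C) (Q ε : ℝ) (hε : 0 < ε) :
    ∃ K : ℝ, ∀ R : ℝ, 1 ≤ R → (Solutions A B C Q R).Finite ∧
      ((Solutions A B C Q R).ncard : ℝ) ≤ K * R ^ (2 / 3 + ε) := by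
  classical
  obtain ⟨D, hD, hT⟩ := T_card ε hε
  obtain ⟨K0, hK0⟩ : ∃ K0 : ℝ, K0 =
      ((Pool.Agent.TH574.AX.rad (A * B) * Pool.Agent.TH574.AX.rad C : ℕ) : ℝ) := ⟨_, rfl⟩
  have hK01 : 1 ≤ K0 := by
    rw [hK0]
    exact_mod_cast Nat.mul_pos (rad_pos _) (rad_pos _)
  have hK00 : 0 < K0 := by linarith
  have hsum : Summable fun m : ℕ => 1 / (m : ℝ) ^ ((4 : ℝ) / 3) :=
    Real.summable_one_div_nat_rpow.2 (by norm_num)
  set S : ℝ := ∑' m : ℕ, 1 / (m : ℝ) ^ ((4 : ℝ) / 3) with hS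
  set N : ℕ := ⌊(A : ℝ) * B * Q⌋₊ with hN
  refine ⟨N * (D * (K0 ^ (2 / 3 + ε) * S)), fun R hR => ?_⟩
  have hR0 : 0 < R := by linarith
  set M : ℕ := ⌊K0 * R⌋₊ with hM
  set P : Finset ℕ := (Icc 1 M).filter (fun m : ℕ => (m : ℝ) ^ 2 ≤ K0 * R) with hP
  set xx : ℕ → ℝ := fun m => K0 * R / (m : ℝ) ^ 2 with hxx
  have hx1 : ∀ m ∈ P, 1 ≤ xx m := by
    intro m hm
    obtain ⟨h1, h2⟩ := Finset.mem_filter.1 hm
    have hm0 : (0 : ℝ) < m := by exact_mod_cast (Finset.mem_Icc.1 h1).1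
    rw [hxx]
    show 1 ≤ K0 * R / (m : ℝ) ^ 2
    rw [le_div_iff₀ (by positivity), one_mul]
    exact h2
  set Tf : ℕ → Finset (ℕ × ℕ) := fun m =>
    if h : (T (xx m)).Finite then h.toFinset else ∅ with hTf
  set F : Finset (ℕ × ℕ × ℕ) := P.biUnion (fun m =>
    ((Icc 1 N) ×ˢ (Tf m)).image (fun q => back A B C ((m, q.1), q.2))) with hF
  have hcover : Solutions A B C Q R ⊆ (F : Set (ℕ × ℕ × ℕ)) := by
    rintro t ⟨h1, h2, h3, h4, h5, u, v, w, hu, hv, hw, hR'⟩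
    have hs : Sol A B C t := ⟨h1, h2, h3, h4⟩
    have hgr : (0 : ℝ) < (rad (Nat.gcd t.1 t.2.1) : ℕ) := by exact_mod_cast rad_pos _
    rw [div_le_iff₀ hgr] at h5
    obtain ⟨k, hk, hk1, hk2⟩ := mult hs h5 hA hB
    set m := Pool.Agent.TH574.AX.rad (Nat.gcd t.1 t.2.1) with hm
    have hm0 : 0 < m := rad_pos _
    have hmr : (0 : ℝ) < m := by exact_mod_cast hm0
    have hrad := pr_rad hA hB hC hs
    rw [← hm] at hrad
    have hprod : Pool.Agent.TH574.AX.rad t.1 * Pool.Agent.TH574.AX.rad t.2.1 *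
        Pool.Agent.TH574.AX.rad t.2.2 ≤ u * v * w :=
      Nat.mul_le_mul (Nat.mul_le_mul (rad_le_of_isProduct hu) (rad_le_of_isProduct hv))
        (rad_le_of_isProduct hw)
    set r := Pool.Agent.TH574.AX.rad ((pr A B t).1 * (pr A B t).2 *
      ((pr A B t).1 + (pr A B t).2)) with hr
    have hr1 : 1 ≤ r := rad_pos _
    have hbig : (m : ℝ) ^ 2 * r ≤ K0 * R := by
      have e1 : m ^ 2 * r ≤ (Pool.Agent.TH574.AX.rad (A * B) * Pool.Agent.TH574.AX.rad C) *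
          (u * v * w) := hrad.trans (Nat.mul_le_mul_left _ hprod)
      have e2 : (m : ℝ) ^ 2 * r ≤ K0 * ((u * v * w : ℕ) : ℝ) := by
        rw [hK0]
        exact_mod_cast e1
      exact e2.trans (by gcongr)
    have hr1' : (1 : ℝ) ≤ r := by exact_mod_cast hr1
    have hm2 : (m : ℝ) ^ 2 ≤ K0 * R := by
      have : (m : ℝ) ^ 2 * 1 ≤ (m : ℝ) ^ 2 * r := by gcongr
      linarith
    have hmP : m ∈ P := by
      refine Finset.mem_filter.2 ⟨Finset.mem_Icc.2 ⟨hm0, ?_⟩, hm2⟩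
      refine Nat.le_floor ?_
      have h1m : (1 : ℝ) ≤ m := by exact_mod_cast hm0
      nlinarith
    have hfin : (T (xx m)).Finite := T_finite (hx1 m hmP)
    refine Finset.mem_coe.2 (Finset.mem_biUnion.2 ⟨m, hmP, Finset.mem_image.2
      ⟨(k, pr A B t), Finset.mem_product.2 ⟨Finset.mem_Icc.2 ⟨hk1, Nat.le_floor hk2⟩, ?_⟩,
        back_eq hA hB hC hs hk⟩⟩)
    have e3 : Tf m = hfin.toFinset := by simp only [hTf, dif_pos hfin]
    show pr A B t ∈ Tf m
    rw [e3, hfin.mem_toFinset]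
    obtain ⟨p1, p2⟩ := pr_pos hA hB hs
    refine ⟨p1, p2, pr_cop hA hs, ?_⟩
    show ((r : ℕ) : ℝ) ≤ K0 * R / (m : ℝ) ^ 2
    rw [le_div_iff₀ (by positivity)]
    linarith
  have hfinS : (Solutions A B C Q R).Finite := (Finset.finite_toSet F).subset hcover
  refine ⟨hfinS, ?_⟩
  have hc1 : (Solutions A B C Q R).ncard ≤ F.card := by
    have := Set.ncard_le_ncard hcover (Finset.finite_toSet F)
    rwa [Set.ncard_coe_finset] at this
  have hc2 : F.card ≤ ∑ m ∈ P, N * (Tf m).card := by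
    refine Finset.card_biUnion_le.trans (Finset.sum_le_sum fun m _ => ?_)
    refine Finset.card_image_le.trans ?_
    rw [Finset.card_product, Nat.card_Icc, Nat.add_sub_cancel]
  have hc3 : ∀ m ∈ P, ((Tf m).card : ℝ) ≤
      D * (K0 ^ (2 / 3 + ε) * R ^ (2 / 3 + ε) * (1 / (m : ℝ) ^ ((4 : ℝ) / 3))) := by
    intro m hm
    have hfin : (T (xx m)).Finite := T_finite (hx1 m hm)
    have e3 : Tf m = hfin.toFinset := by simp only [hTf, dif_pos hfin]
    have e4 : ((Tf m).card : ℝ) = ((T (xx m)).ncard : ℝ) := by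
      rw [e3, Set.ncard_eq_toFinset_card _ hfin]
    rw [e4]
    refine (hT _ (hx1 m hm)).trans ?_
    have hm1 : (1 : ℝ) ≤ m := by
      exact_mod_cast (Finset.mem_Icc.1 (Finset.mem_filter.1 hm).1).1
    have hm0 : (0 : ℝ) < m := by linarith
    refine mul_le_mul_of_nonneg_left ?_ hD.le
    show (K0 * R / (m : ℝ) ^ 2) ^ (2 / 3 + ε) ≤ _
    rw [Real.div_rpow (by positivity) (by positivity), Real.mul_rpow hK00.le hR0.le,
      div_eq_mul_one_div]
    refine mul_le_mul_of_nonneg_left ?_ (by positivity)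
    refine one_div_le_one_div_of_le (by positivity) ?_
    rw [← Real.rpow_natCast, ← Real.rpow_mul hm0.le]
    refine Real.rpow_le_rpow_of_exponent_le hm1 ?_
    push_cast
    linarith
  have hc4 : ∑ m ∈ P, 1 / (m : ℝ) ^ ((4 : ℝ) / 3) ≤ S :=
    hsum.sum_le_tsum P (fun m _ => by positivity)
  calc ((Solutions A B C Q R).ncard : ℝ) ≤ ((∑ m ∈ P, N * (Tf m).card : ℕ) : ℝ) := by
        exact_mod_cast hc1.trans hc2
    _ = ∑ m ∈ P, (N : ℝ) * ((Tf m).card : ℝ) := by push_cast; rfl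
    _ ≤ ∑ m ∈ P, (N : ℝ) * (D * (K0 ^ (2 / 3 + ε) * R ^ (2 / 3 + ε) *
          (1 / (m : ℝ) ^ ((4 : ℝ) / 3)))) :=
        Finset.sum_le_sum fun m hm => mul_le_mul_of_nonneg_left (hc3 m hm) (Nat.cast_nonneg _)
    _ = (N * (D * (K0 ^ (2 / 3 + ε) * R ^ (2 / 3 + ε)))) *
          ∑ m ∈ P, 1 / (m : ℝ) ^ ((4 : ℝ) / 3) := by
        rw [Finset.mul_sum]
        exact Finset.sum_congr rfl fun m _ => by ring
    _ ≤ (N * (D * (K0 ^ (2 / 3 + ε) * R ^ (2 / 3 + ε)))) * S :=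
        mul_le_mul_of_nonneg_left hc4 (by positivity)
    _ = N * (D * (K0 ^ (2 / 3 + ε) * S)) * R ^ (2 / 3 + ε) := by ring

end Pool.Agent.Results.MP_4ffbf9_nt.AllHeights
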