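import Pool.Agent.TH194.MR.Coef3

/-!
# `A X + B Y = C Z` for almost all coefficients: the least radical of a solution

For `1 ≤ R ≤ N ^ (3 / 2)` the number of the triples `(A, B, C)` of numbers up to `N` for which
`A X + B Y = C Z` has a solution in nonzero integers, of whatever size, with radical at most `R` is
`N ^ 2 R ^ (2 / 3)`, up to a factor `N ^ ε`; the same holds for solutions in products with a small
`∏ (b + s) ^ (s + 1)`. For `R ≥ (3 N) ^ (3 / 2)` almost all triples have such a solution.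
-/

set_option autoImplicit false

namespace Pool.Agent.Results.MP_4ffbf9_nt.AlmostAllCoefficients

open Finset
open Pool.Agent.TH194.MR (Sp Pr signs small_sol count_low count_up few_pairs rad rad_le)

/-- the product of the primes dividing `n` -/
def radical (n : ℕ) : ℕ := ∏ p ∈ n.primeFactors, p

/-- `w` is the product of a nonempty finite sequence of integers between `b` and `b + s`,
where `b` is positive -/
def IsProduct (b s w : ℕ) : Prop :=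
  0 < b ∧ ∃ l : List ℕ, l ≠ [] ∧ (∀ x ∈ l, b ≤ x ∧ x ≤ b + s) ∧ l.prod = w

/-- the triples `(A, B, C)` of numbers up to `N` such that `A X + B Y = C Z` has a solution in
nonzero integers, of whatever size, with radical at most `R` -/
def Small (R : ℝ) (N : ℕ) : Set (ℕ × ℕ × ℕ) :=
  {v | 1 ≤ v.1 ∧ v.1 ≤ N ∧ 1 ≤ v.2.1 ∧ v.2.1 ≤ N ∧ 1 ≤ v.2.2 ∧ v.2.2 ≤ N ∧
    ∃ X Y Z : ℤ, X ≠ 0 ∧ Y ≠ 0 ∧ Z ≠ 0 ∧ (v.1 : ℤ) * X + v.2.1 * Y = v.2.2 * Z ∧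
      (radical (X * Y * Z).natAbs : ℝ) ≤ R}

/-- the triples `(A, B, C)` of numbers up to `N` such that `A X + B Y = C Z` has a solution in
nonzero integers whose absolute values are products, of any degrees, with bases `b₁, b₂, b₃` and
spreads at most `s₁, s₂, s₃` such that the product of the three `(b + s) ^ (s + 1)` is at
most `R` -/
def SmallProducts (R : ℝ) (N : ℕ) : Set (ℕ × ℕ × ℕ) :=
  {v | 1 ≤ v.1 ∧ v.1 ≤ N ∧ 1 ≤ v.2.1 ∧ v.2.1 ≤ N ∧ 1 ≤ v.2.2 ∧ v.2.2 ≤ N ∧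
    ∃ X Y Z : ℤ, X ≠ 0 ∧ Y ≠ 0 ∧ Z ≠ 0 ∧ (v.1 : ℤ) * X + v.2.1 * Y = v.2.2 * Z ∧
      ∃ b₁ s₁ b₂ s₂ b₃ s₃ : ℕ, IsProduct b₁ s₁ X.natAbs ∧ IsProduct b₂ s₂ Y.natAbs ∧
        IsProduct b₃ s₃ Z.natAbs ∧
        (((b₁ + s₁) ^ (s₁ + 1) * (b₂ + s₂) ^ (s₂ + 1) * (b₃ + s₃) ^ (s₃ + 1) : ℕ) : ℝ) ≤ R}

theorem radical_eq (n : ℕ) : radical n = rad n := rfl

theorem isProduct_pos {b s w : ℕ} (h : IsProduct b s w) : 0 < w := by
  obtain ⟨hb, l, -, hl, hw⟩ := h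
  rw [← hw]
  exact List.prod_pos fun x hx => lt_of_lt_of_le hb (hl x hx).1

theorem isProduct_self {w : ℕ} (h : 0 < w) : IsProduct w 0 w :=
  ⟨h, [w], by simp, by simp, by simp⟩

theorem primeFactors_isProduct {b s w : ℕ} (h : IsProduct b s w) :
    w.primeFactors ⊆ (∏ x ∈ Finset.Icc b (b + s), x).primeFactors := by
  obtain ⟨hb, l, -, hl, hw⟩ := h
  intro p hp
  obtain ⟨hp1, hp2, -⟩ := Nat.mem_primeFactors.1 hp
  rw [← hw] at hp2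
  obtain ⟨x, hx, hpx⟩ := (hp1.prime.dvd_prod_iff).1 hp2
  rw [Nat.mem_primeFactors]
  refine ⟨hp1, hpx.trans (Finset.dvd_prod_of_mem (fun y => y) (Finset.mem_Icc.2 (hl x hx))), ?_⟩
  refine Finset.prod_ne_zero_iff.2 fun y hy => ?_
  have := (Finset.mem_Icc.1 hy).1
  omega

theorem prod_Icc_le (b s : ℕ) : ∏ x ∈ Finset.Icc b (b + s), x ≤ (b + s) ^ (s + 1) := by
  have h1 : ∏ x ∈ Finset.Icc b (b + s), x ≤ ∏ _x ∈ Finset.Icc b (b + s), (b + s) :=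
    Finset.prod_le_prod' fun x hx => (Finset.mem_Icc.1 hx).2
  refine h1.trans (le_of_eq ?_)
  rw [Finset.prod_const, Nat.card_Icc]
  congr 1
  omega

theorem radical_products {b₁ s₁ b₂ s₂ b₃ s₃ X Y Z : ℕ} (h1 : IsProduct b₁ s₁ X)
    (h2 : IsProduct b₂ s₂ Y) (h3 : IsProduct b₃ s₃ Z) :
    radical (X * Y * Z) ≤ (b₁ + s₁) ^ (s₁ + 1) * (b₂ + s₂) ^ (s₂ + 1) * (b₃ + s₃) ^ (s₃ + 1) := by
  obtain ⟨P, hP⟩ : ∃ P : ℕ → ℕ → ℕ, P = fun b s => ∏ x ∈ Finset.Icc b (b + s), x := ⟨_, rfl⟩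
  have hpos : ∀ b s : ℕ, 0 < b → P b s ≠ 0 := by
    intro b s hb
    rw [hP]
    refine Finset.prod_ne_zero_iff.2 fun y hy => ?_
    have := (Finset.mem_Icc.1 hy).1
    omega
  have e1 := hpos b₁ s₁ h1.1
  have e2 := hpos b₂ s₂ h2.1
  have e3 := hpos b₃ s₃ h3.1
  have f1 : X.primeFactors ⊆ (P b₁ s₁).primeFactors := by rw [hP]; exact primeFactors_isProduct h1
  have f2 : Y.primeFactors ⊆ (P b₂ s₂).primeFactors := by rw [hP]; exact primeFactors_isProduct h2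
  have f3 : Z.primeFactors ⊆ (P b₃ s₃).primeFactors := by rw [hP]; exact primeFactors_isProduct h3
  have hX := (isProduct_pos h1).ne'
  have hY := (isProduct_pos h2).ne'
  have hZ := (isProduct_pos h3).ne'
  have hsub : (X * Y * Z).primeFactors ⊆ (P b₁ s₁ * P b₂ s₂ * P b₃ s₃).primeFactors := by
    rw [Nat.primeFactors_mul (Nat.mul_ne_zero hX hY) hZ, Nat.primeFactors_mul hX hY,
      Nat.primeFactors_mul (Nat.mul_ne_zero e1 e2) e3, Nat.primeFactors_mul e1 e2]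
    exact Finset.union_subset_union (Finset.union_subset_union f1 f2) f3
  have hle : radical (X * Y * Z) ≤ rad (P b₁ s₁ * P b₂ s₂ * P b₃ s₃) := by
    unfold radical rad
    exact Finset.prod_le_prod_of_subset_of_one_le' hsub fun q hq _ =>
      (Nat.prime_of_mem_primeFactors hq).one_le
  refine hle.trans ((rad_le (Nat.mul_ne_zero (Nat.mul_ne_zero e1 e2) e3)).trans ?_)
  have g : ∀ b s : ℕ, P b s ≤ (b + s) ^ (s + 1) := by
    intro b s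
    rw [hP]
    exact prod_Icc_le b s
  exact Nat.mul_le_mul (Nat.mul_le_mul (g _ _) (g _ _)) (g _ _)

theorem small_finite (R : ℝ) (N : ℕ) : (Small R N).Finite := by
  refine Set.Finite.subset (Finset.finite_toSet
    (Finset.Icc 1 N ×ˢ Finset.Icc 1 N ×ˢ Finset.Icc 1 N)) ?_
  rintro ⟨a, b, c⟩ ⟨h1, h2, h3, h4, h5, h6, -⟩
  rw [Finset.mem_coe, Finset.mem_product, Finset.mem_product, Finset.mem_Icc, Finset.mem_Icc,
    Finset.mem_Icc]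
  exact ⟨⟨h1, h2⟩, ⟨h3, h4⟩, h5, h6⟩

theorem products_subset (R : ℝ) (N : ℕ) : SmallProducts R N ⊆ Small R N := by
  rintro v ⟨h1, h2, h3, h4, h5, h6, X, Y, Z, hX, hY, hZ, heq, b₁, s₁, b₂, s₂, b₃, s₃, k1, k2, k3,
    hR⟩
  refine ⟨h1, h2, h3, h4, h5, h6, X, Y, Z, hX, hY, hZ, heq, le_trans ?_ hR⟩
  rw [Int.natAbs_mul, Int.natAbs_mul]
  exact_mod_cast radical_products k1 k2 k3

theorem products_finite (R : ℝ) (N : ℕ) : (SmallProducts R N).Finite :=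
  (small_finite R N).subset (products_subset R N)

/-- a solution with a small product of the absolute values -/
theorem mem_products {R : ℝ} {N A B C : ℕ} (h1 : 1 ≤ A) (h2 : A ≤ N) (h3 : 1 ≤ B) (h4 : B ≤ N)
    (h5 : 1 ≤ C) (h6 : C ≤ N) {X Y Z : ℤ} (hX : X ≠ 0) (hY : Y ≠ 0) (hZ : Z ≠ 0)
    (heq : (A : ℤ) * X + B * Y = C * Z)
    (hR : ((X.natAbs * Y.natAbs * Z.natAbs : ℕ) : ℝ) ≤ R) : (A, B, C) ∈ SmallProducts R N := by
  refine ⟨h1, h2, h3, h4, h5, h6, X, Y, Z, hX, hY, hZ, heq, X.natAbs, 0, Y.natAbs, 0, Z.natAbs, 0,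
    isProduct_self (Int.natAbs_pos.2 hX), isProduct_self (Int.natAbs_pos.2 hY),
    isProduct_self (Int.natAbs_pos.2 hZ), ?_⟩
  simpa using hR

theorem small_upper (ε : ℝ) (hε : 0 < ε) : ∃ K : ℝ, ∀ (N : ℕ) (R : ℝ), 2 ≤ N → 1 ≤ R →
    R ≤ (N : ℝ) ^ (3 / 2 : ℝ) →
    ((Small R N).ncard : ℝ) ≤ K * (N : ℝ) ^ (2 + ε) * R ^ (2 / 3 : ℝ) := by
  obtain ⟨K, hK⟩ := count_up ε hε
  refine ⟨K, fun N R hN hR hRN => ?_⟩
  rw [Set.ncard_eq_toFinset_card _ (small_finite R N)]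
  refine hK N R (by omega) hR hRN _ ?_
  rintro ⟨A, B, C⟩ he
  rw [Set.Finite.mem_toFinset] at he
  obtain ⟨h1, h2, h3, h4, h5, h6, X, Y, Z, hX, hY, hZ, heq, hr⟩ := he
  exact ⟨h1, h2, h3, h4, h5, h6, signs hX hY hZ heq hr⟩

theorem small_lower (ε : ℝ) (hε : 0 < ε) : ∃ c : ℝ, 0 < c ∧ ∀ (N : ℕ) (R : ℝ), 2 ≤ N → 1 ≤ R →
    R ≤ (N : ℝ) ^ (3 / 2 : ℝ) →
    c * (N : ℝ) ^ (2 - ε) * R ^ (2 / 3 : ℝ) ≤ ((SmallProducts R N).ncard : ℝ) := by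
  obtain ⟨c, hc, h⟩ := count_low ε hε
  refine ⟨c, hc, fun N R hN hR hRN => ?_⟩
  have hR0 : 0 < R := by linarith
  have hN0 : (0 : ℝ) ≤ N := Nat.cast_nonneg N
  have e1 : (R ^ (1 / 3 : ℝ)) ^ 3 = R := by
    rw [← Real.rpow_natCast, ← Real.rpow_mul hR0.le]
    norm_num
  have e2 : (R ^ (1 / 3 : ℝ)) ^ 2 = R ^ (2 / 3 : ℝ) := by
    rw [← Real.rpow_natCast, ← Real.rpow_mul hR0.le]
    norm_num
  have e3 : 1 ≤ R ^ (1 / 3 : ℝ) := Real.one_le_rpow hR (by norm_num)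
  have e4 : R ^ (2 / 3 : ℝ) ≤ N := by
    calc R ^ (2 / 3 : ℝ) ≤ ((N : ℝ) ^ (3 / 2 : ℝ)) ^ (2 / 3 : ℝ) :=
          Real.rpow_le_rpow hR0.le hRN (by norm_num)
      _ = N := by
          rw [← Real.rpow_mul hN0]
          norm_num
  have e5 := h N (R ^ (1 / 3 : ℝ)) hN e3 (by rw [e2]; exact e4) (products_finite R N).toFinset
    (fun A B C h1 h2 h3 h4 h5 h6 hs => by
      rw [e1] at hs
      obtain ⟨X, Y, Z, hX, hY, hZ, heq, hr⟩ := hs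
      rw [Set.Finite.mem_toFinset]
      refine mem_products (X := X) (Y := Y) (Z := Z) h1 h2 h3 h4 h5 h6 (by omega) (by omega)
        (by omega) (by exact_mod_cast heq) ?_
      rw [Int.natAbs_natCast, Int.natAbs_natCast, Int.natAbs_natCast]
      exact hr)
  rw [e2] at e5
  rw [Set.ncard_eq_toFinset_card _ (products_finite R N)]
  exact e5

theorem small_all (N : ℕ) (R : ℝ) (hN : 1 ≤ N) (hR : (3 * (N : ℝ)) ^ (3 / 2 : ℝ) ≤ R) :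
    (N : ℝ) ^ 3 - 12 * (N : ℝ) ^ (5 / 2 : ℝ) ≤ ((SmallProducts R N).ncard : ℝ) := by
  classical
  obtain ⟨Bx, hBx⟩ : ∃ Bx : Finset (ℕ × ℕ × ℕ), Bx =
      Finset.Icc 1 N ×ˢ Finset.Icc 1 N ×ˢ Finset.Icc 1 N := ⟨_, rfl⟩
  have hmem : ∀ e ∈ Bx, 1 ≤ e.1 ∧ e.1 ≤ N ∧ 1 ≤ e.2.1 ∧ e.2.1 ≤ N ∧ 1 ≤ e.2.2 ∧ e.2.2 ≤ N := by
    intro e he
    rw [hBx, Finset.mem_product, Finset.mem_product, Finset.mem_Icc, Finset.mem_Icc,
      Finset.mem_Icc] at he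
    exact ⟨he.1.1, he.1.2, he.2.1.1, he.2.1.2, he.2.2.1, he.2.2.2⟩
  obtain ⟨E, hE⟩ : ∃ E, E = Bx.filter fun e => Pr (Nat.sqrt (3 * N)) e.2.1 e.2.2 ∨
    Pr (Nat.sqrt (3 * N)) e.1 e.2.2 ∨ Pr (Nat.sqrt (3 * N)) e.1 e.2.1 := ⟨_, rfl⟩
  have hEc : (E.card : ℝ) ≤ 12 * (N : ℝ) ^ (5 / 2 : ℝ) := by
    refine few_pairs hN E fun e he => ?_
    rw [hE, Finset.mem_filter] at he
    obtain ⟨h1, h2, h3, h4, h5, h6⟩ := hmem e he.1
    exact ⟨h1, h2, h3, h4, h5, h6, he.2⟩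
  have hsub : Bx ⊆ (products_finite R N).toFinset ∪ E := by
    intro e he
    rw [Finset.mem_union]
    by_cases hp : Pr (Nat.sqrt (3 * N)) e.2.1 e.2.2 ∨
      Pr (Nat.sqrt (3 * N)) e.1 e.2.2 ∨ Pr (Nat.sqrt (3 * N)) e.1 e.2.1
    · right
      rw [hE, Finset.mem_filter]
      exact ⟨he, hp⟩
    · left
      obtain ⟨h1, h2, h3, h4, h5, h6⟩ := hmem e he
      obtain ⟨X, Y, Z, hX, hY, hZ, heq, e1, e2, e3⟩ := small_sol h1 h3 h5 h2 h4 h6 hp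
      rw [Set.Finite.mem_toFinset]
      refine mem_products h1 h2 h3 h4 h5 h6 hX hY hZ heq (le_trans ?_ hR)
      obtain ⟨T, hT⟩ : ∃ T : ℕ, T = Nat.sqrt (3 * N) := ⟨_, rfl⟩
      rw [← hT] at e1 e2 e3
      have f1 : X.natAbs * Y.natAbs * Z.natAbs ≤ T * T * T :=
        Nat.mul_le_mul (Nat.mul_le_mul e1 e2) e3
      have f2 : (T : ℝ) ≤ (3 * (N : ℝ)) ^ (1 / 2 : ℝ) := by
        rw [hT, ← Real.sqrt_eq_rpow]
        have f3 : ((Nat.sqrt (3 * N) : ℕ) : ℝ) ≤ Real.sqrt ((3 * N : ℕ) : ℝ) :=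
          Real.nat_sqrt_le_real_sqrt
        push_cast at f3
        exact f3
      have h3N : (0 : ℝ) ≤ 3 * (N : ℝ) := by positivity
      calc ((X.natAbs * Y.natAbs * Z.natAbs : ℕ) : ℝ) ≤ ((T * T * T : ℕ) : ℝ) := by
            exact_mod_cast f1
        _ = (T : ℝ) ^ 3 := by push_cast; ring
        _ ≤ ((3 * (N : ℝ)) ^ (1 / 2 : ℝ)) ^ 3 := by gcongr
        _ = (3 * (N : ℝ)) ^ (3 / 2 : ℝ) := by
            rw [← Real.rpow_natCast, ← Real.rpow_mul h3N]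
            norm_num
  have hcard := (Finset.card_le_card hsub).trans (Finset.card_union_le _ _)
  have hBc : Bx.card = N ^ 3 := by
    rw [hBx, Finset.card_product, Finset.card_product, Nat.card_Icc, Nat.add_sub_cancel]
    ring
  rw [hBc, ← Set.ncard_eq_toFinset_card _ (products_finite R N)] at hcard
  have hcard' : (N : ℝ) ^ 3 ≤ ((SmallProducts R N).ncard : ℝ) + E.card := by exact_mod_cast hcard
  linarith

theorem result :
    (∀ ε : ℝ, 0 < ε → ∃ c K : ℝ, 0 < c ∧ ∀ (N : ℕ) (R : ℝ), 2 ≤ N → 1 ≤ R →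
      R ≤ (N : ℝ) ^ (3 / 2 : ℝ) →
      c * (N : ℝ) ^ (2 - ε) * R ^ (2 / 3 : ℝ) ≤ ((SmallProducts R N).ncard : ℝ) ∧
      ((SmallProducts R N).ncard : ℝ) ≤ ((Small R N).ncard : ℝ) ∧
      ((Small R N).ncard : ℝ) ≤ K * (N : ℝ) ^ (2 + ε) * R ^ (2 / 3 : ℝ)) ∧
    (∀ (N : ℕ) (R : ℝ), 1 ≤ N → (3 * (N : ℝ)) ^ (3 / 2 : ℝ) ≤ R →
      (N : ℝ) ^ 3 - 12 * (N : ℝ) ^ (5 / 2 : ℝ) ≤ ((SmallProducts R N).ncard : ℝ)) := by
  refine ⟨fun ε hε => ?_, fun N R hN hR => small_all N R hN hR⟩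
  obtain ⟨c, hc, h1⟩ := small_lower ε hε
  obtain ⟨K, h2⟩ := small_upper ε hε
  refine ⟨c, K, hc, fun N R hN hR hRN => ⟨h1 N R hN hR hRN, ?_, h2 N R hN hR hRN⟩⟩
  exact_mod_cast Set.ncard_le_ncard (products_subset R N) (small_finite R N)

end Pool.Agent.Results.MP_4ffbf9_nt.AlmostAllCoefficients
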