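import Mathlib
import Pool.Agent.TH194.SP.Main

/-!
MP_4ffbf9_nt: the equation `A X + B Y = C Z` in products of small spread has no solution at all, of
any degrees, for almost all triples of bases, with a power saving in the number of exceptions.
-/

set_option autoImplicit false

namespace Pool.Agent.Results.MP_4ffbf9_nt.RandomSmallSpread

open Pool.Agent.TH194.SP

/-- The integer `X` is a product `x_1 ... x_n` (any degree `n ≥ 1`) whose factors all lie in the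
interval `[b, b + s]`. Every product of base `b` and spread at most `s` is of this kind. -/
def ProductFrom (b s X : ℕ) : Prop :=
  ∃ (n : ℕ) (x : Fin n → ℕ), 0 < n ∧ (∀ i, b ≤ x i ∧ x i ≤ b + s) ∧ X = ∏ i, x i

/-- The bases `b_0, ..., b_(M-1)` for which some relation `∑ c_i X_i = 0` holds, where the `c_i` are
nonzero integers of absolute value at most `H` with nonzero sum and `X_i` is a product of integers
of `[b_i, b_i + s_i]`, `s_i ≤ σ`. -/
def BadBases (M : ℕ) (H σ : ℝ) : Set (Fin M → ℕ) :=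
  {b | ∃ (c : Fin M → ℤ) (X : Fin M → ℕ), (∀ i, c i ≠ 0 ∧ |(c i : ℝ)| ≤ H) ∧ ∑ i, c i ≠ 0 ∧
    (∀ i, ∃ s : ℕ, (s : ℝ) ≤ σ ∧ ProductFrom (b i) s (X i)) ∧ ∑ i, c i * (X i : ℤ) = 0}

/-- The triples of bases for which `A X + B Y = C Z` has a solution, for some positive integers
`A, B, C ≤ H` with `A + B ≠ C`, in products of base `b_i` (`i = 0, 1, 2`) and spread at most `σ`. -/
def BadTriples (H σ : ℝ) : Set (Fin 3 → ℕ) :=
  {b | ∃ A B C X Y Z : ℕ, 0 < A ∧ 0 < B ∧ 0 < C ∧ (A : ℝ) ≤ H ∧ (B : ℝ) ≤ H ∧ (C : ℝ) ≤ H ∧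
    A + B ≠ C ∧ (∃ s : ℕ, (s : ℝ) ≤ σ ∧ ProductFrom (b 0) s X) ∧
    (∃ s : ℕ, (s : ℝ) ≤ σ ∧ ProductFrom (b 1) s Y) ∧
    (∃ s : ℕ, (s : ℝ) ≤ σ ∧ ProductFrom (b 2) s Z) ∧ A * X + B * Y = C * Z}

theorem triples_subset (H σ : ℝ) : BadTriples H σ ⊆ BadBases 3 H σ := by
  rintro b ⟨A, B, C, X, Y, Z, hA, hB, hC, hAH, hBH, hCH, hne, hX, hY, hZ, heq⟩
  refine ⟨![(A : ℤ), B, -(C : ℤ)], ![X, Y, Z], ?_, ?_, ?_, ?_⟩
  · intro i
    fin_cases i
    · refine ⟨?_, ?_⟩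
      · simpa using hA.ne'
      · simpa using hAH
    · refine ⟨?_, ?_⟩
      · simpa using hB.ne'
      · simpa using hBH
    · refine ⟨?_, ?_⟩
      · simpa using hC.ne'
      · simpa using hCH
  · rw [Fin.sum_univ_three]
    simp only [Matrix.cons_val_zero, Matrix.cons_val_one, Matrix.cons_val]
    intro h
    apply hne
    omega
  · intro i
    fin_cases i
    · exact hX
    · exact hY
    · exact hZ
  · rw [Fin.sum_univ_three]
    simp only [Matrix.cons_val_zero, Matrix.cons_val_one, Matrix.cons_val]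
    have : (A * X + B * Y : ℤ) = C * Z := by exact_mod_cast heq
    linarith

/-- **Products of small spread with random bases.** For every `M` and every `ε > 0` there is
`δ > 0` such that for all large `N` and all boxes with sides at least `N`, all but a proportion
`N ^ (-1 / 4 + ε)` of the `b` in the box admit no relation `∑ c_i X_i = 0` with products `X_i` of any
degree of integers of `[b_i, b_i + (log N) ^ δ]` and nonzero integers
`|c_i| ≤ exp ((log N) ^ (1 - ε))` with `∑ c_i ≠ 0`. In particular this holds for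
`A X + B Y = C Z`, `A + B ≠ C`. -/
theorem result :
    (∀ (M : ℕ) (ε : ℝ), 0 < ε → ∃ δ : ℝ, 0 < δ ∧ ∃ N₀ : ℕ, ∀ N : ℕ, N₀ ≤ N →
      ∀ a w : Fin M → ℕ, (∀ i, N ≤ w i) →
      ((({b : Fin M → ℕ | ∀ i, a i < b i ∧ b i ≤ a i + w i} ∩
        BadBases M (Real.exp (Real.log N ^ (1 - ε))) (Real.log N ^ δ)).ncard : ℕ) : ℝ) ≤
        (N : ℝ) ^ (-(1 / 4) + ε) * ∏ i, (w i : ℝ)) ∧
    (∀ ε : ℝ, 0 < ε → ∃ δ : ℝ, 0 < δ ∧ ∃ N₀ : ℕ, ∀ N : ℕ, N₀ ≤ N →
      ∀ a w : Fin 3 → ℕ, (∀ i, N ≤ w i) →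
      ((({b : Fin 3 → ℕ | ∀ i, a i < b i ∧ b i ≤ a i + w i} ∩
        BadTriples (Real.exp (Real.log N ^ (1 - ε))) (Real.log N ^ δ)).ncard : ℕ) : ℝ) ≤
        (N : ℝ) ^ (-(1 / 4) + ε) * ∏ i, (w i : ℝ)) := by
  have main : ∀ (M : ℕ) (ε : ℝ), 0 < ε → ∃ δ : ℝ, 0 < δ ∧ ∃ N₀ : ℕ, ∀ N : ℕ, N₀ ≤ N →
      ∀ a w : Fin M → ℕ, (∀ i, N ≤ w i) →
      ((({b : Fin M → ℕ | ∀ i, a i < b i ∧ b i ≤ a i + w i} ∩
        BadBases M (Real.exp (Real.log N ^ (1 - ε))) (Real.log N ^ δ)).ncard : ℕ) : ℝ) ≤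
        (N : ℝ) ^ (-(1 / 4) + ε) * ∏ i, (w i : ℝ) := by
    intro M ε h0
    obtain ⟨δ, hδ, N₀, h⟩ := products M h0
    exact ⟨δ, hδ, N₀, fun N hN a w hw => h N hN a w hw⟩
  refine ⟨main, fun ε h0 => ?_⟩
  obtain ⟨δ, hδ, N₀, h⟩ := main 3 ε h0
  refine ⟨δ, hδ, N₀, fun N hN a w hw => le_trans ?_ (h N hN a w hw)⟩
  have hfin : ({b : Fin 3 → ℕ | ∀ i, a i < b i ∧ b i ≤ a i + w i} ∩
      BadBases 3 (Real.exp (Real.log N ^ (1 - ε))) (Real.log N ^ δ)).Finite := by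
    apply Set.Finite.subset (Finset.finite_toSet
      (Fintype.piFinset (fun i => Finset.Ioc (a i) (a i + w i))))
    rintro b ⟨hb, -⟩
    rw [Finset.mem_coe, Fintype.mem_piFinset]
    intro i
    rw [Finset.mem_Ioc]
    exact hb i
  exact_mod_cast Set.ncard_le_ncard
    (Set.inter_subset_inter_right _ (triples_subset _ _)) hfin

end Pool.Agent.Results.MP_4ffbf9_nt.RandomSmallSpread
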