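import Mathlib
import Pool.Agent.TH905.SS.Count

/-!
# Counting the solutions of `A X + B Y = C Z` in products of small spread

For positive integers `A, B, C` and real `F ≤ 1`, `Q`, `M` let `Sol A B C F Q M` be the set of the
triples `(X, Y, Z)` of the problem: `A X + B Y = C Z`, `gcd (X, Y) / rad (gcd (X, Y)) ≤ Q`, and
`X, Y, Z` have representations as products with `s² ≤ M b` and `∑ (s + 1) / n ≤ F`. The conjecture
is that it is finite for `F < 1`. We prove that for every `ε > 0` the number of its elements with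
`Z ≤ N` is `O (N ^ (θ (F) + ε))`, `θ (F) = min (4 F / 7) ((13 F + 2) / 28)`, so `O (N ^ (15/28 + ε))` for
all `F < 1`, with no assumption on `gcd (X, Y)` besides the one of the problem.

Proof: a product of `n` numbers in `[b, b + s]` has a radical which is at most
`∏ (b + j) ≤ e ^ M b ^ (s + 1)`. Divide a solution by the gcd `g` of `A X` and `B Y`. With
`G = gcd (X, Y)` the coprime triple `(a, b, c)` has height `≍ Z / G` and
`rad (a b c) rad (G) ^ 2 ≤ (A B C) ^ 3 rad X rad Y rad Z`, so `rad (a b c) ≪ Z ^ F / G ^ 2`. For `G ≍ Z ^ γ`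
the triples are counted by the number of exceptional `abc` triples with
`λ = (F - 2 γ) / (1 - γ)` (`count_FxB`, a starting file), the number of `g` by `Z ^ γ`, and the sum of
the exponents `γ + (1 - γ) θ (λ)` is at most `θ (F)` for all `γ`.
-/

set_option autoImplicit false

namespace Pool.Agent.Results.MP_4ffbf9_nt.SmallSpreadCount

/-- The solutions `(X, Y, Z)` of the problem, for `A, B, C, F, Q, M`: as in the problem's frozen
statement, `b` is the least factor and `b + s` the greatest one in a representation. -/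
def Sol (A B C : ℕ) (F Q M : ℝ) : Set (ℕ × ℕ × ℕ) :=
  {t : ℕ × ℕ × ℕ |
    A * t.1 + B * t.2.1 = C * t.2.2 ∧
    ∃ (nX nY nZ bX bY bZ sX sY sZ : ℕ)
      (x : Fin nX → ℕ) (y : Fin nY → ℕ) (z : Fin nZ → ℕ),
      0 < bX ∧ 0 < bY ∧ 0 < bZ ∧
      (∀ i, bX ≤ x i ∧ x i ≤ bX + sX) ∧ (∃ i, x i = bX) ∧ (∃ i, x i = bX + sX) ∧
      (∀ i, bY ≤ y i ∧ y i ≤ bY + sY) ∧ (∃ i, y i = bY) ∧ (∃ i, y i = bY + sY) ∧
      (∀ i, bZ ≤ z i ∧ z i ≤ bZ + sZ) ∧ (∃ i, z i = bZ) ∧ (∃ i, z i = bZ + sZ) ∧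
      (∏ i, x i) = t.1 ∧ (∏ i, y i) = t.2.1 ∧ (∏ i, z i) = t.2.2 ∧
      ((sX : ℝ) ^ 2 / (bX : ℝ) ≤ M) ∧
      ((sY : ℝ) ^ 2 / (bY : ℝ) ≤ M) ∧
      ((sZ : ℝ) ^ 2 / (bZ : ℝ) ≤ M) ∧
      ((1 + (sX : ℝ)) / (nX : ℝ) + (1 + (sY : ℝ)) / (nY : ℝ)
        + (1 + (sZ : ℝ)) / (nZ : ℝ) ≤ F) ∧
      ((Nat.gcd t.1 t.2.1 : ℝ) /
        (∏ p ∈ (Nat.gcd t.1 t.2.1).primeFactors, (p : ℝ)) ≤ Q)}

/-- **The number of solutions with `Z ≤ N`.** -/
theorem result (A B C : ℕ) (F Q M ε : ℝ) (hA : 0 < A) (hB : 0 < B) (hC : 0 < C) (hF : F ≤ 1)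
    (hε : 0 < ε) :
    ∃ K : ℝ, ∀ N : ℕ, 1 ≤ N →
      (Sol A B C F Q M ∩ {t : ℕ × ℕ × ℕ | t.2.2 ≤ N}).Finite ∧
      ((Sol A B C F Q M ∩ {t : ℕ × ℕ × ℕ | t.2.2 ≤ N}).ncard : ℝ) ≤
        K * (N : ℝ) ^ (min (4 * F / 7) ((13 * F + 2) / 28) + ε) := by
  obtain ⟨K, hK⟩ := Pool.Agent.TH905.SS.main (Q := Q) (M := M) hA hB hC hF hε
  exact ⟨K, fun N hN => ⟨Pool.Agent.TH905.SS.sol_finite hA hB hC N, hK N hN⟩⟩

end Pool.Agent.Results.MP_4ffbf9_nt.SmallSpreadCount
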